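import Pool.Agent.H46.VIO.Stmts

/-!
# VIO: row MAV (Theorem V, all heights, from the windows)
-/

set_option autoImplicit false

namespace Pool.VIO

open Finset Pool.Agent.H98.ABCR Pool.SHA Pool.ABY

theorem mav_two (v : ℕ × ℕ) (hv : IsTri v) : 2 ≤ RR v := by
  obtain ⟨h1, h2, _⟩ := hv
  have h3 : 1 < nn v := by
    unfold nn
    have hab : 1 ≤ v.1 * v.2 := Nat.mul_pos h1 h2
    have hs : 2 ≤ v.1 + v.2 := by omega
    nlinarith
  obtain ⟨p, hp⟩ := Nat.nonempty_primeFactors.mpr h3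
  have h4 : p ∣ RR v := by
    unfold RR rad
    exact Finset.dvd_prod_of_mem (fun q => q) hp
  have h5 : 0 < RR v := by
    unfold RR rad
    exact Finset.prod_pos (fun q hq => (Nat.prime_of_mem_primeFactors hq).pos)
  exact (Nat.prime_of_mem_primeFactors hp).two_le.trans (Nat.le_of_dvd h5 h4)

/-- the window of a height -/
theorem mav_win (a r y : ℝ) (ha : 0 < a) (hr : 1 < r) (hy : a ≤ y) :
    ∃ n : ℕ, a * r ^ n ≤ y ∧ y ≤ r * (a * r ^ n) ∧ (n : ℝ) * Real.log r ≤ Real.log (y / a) := by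
  have hypos : 0 < y := lt_of_lt_of_le ha hy
  have hlr : 0 < Real.log r := Real.log_pos hr
  have hq : 0 < y / a := div_pos hypos ha
  have h1 : 0 ≤ Real.log (y / a) := by
    apply Real.log_nonneg
    rw [le_div_iff₀ ha]
    linarith
  set n : ℕ := ⌊Real.log (y / a) / Real.log r⌋₊ with hn
  have h2 : (n : ℝ) ≤ Real.log (y / a) / Real.log r := Nat.floor_le (div_nonneg h1 hlr.le)
  have h3 : Real.log (y / a) / Real.log r < (n : ℝ) + 1 := Nat.lt_floor_add_one _
  have h4 : (n : ℝ) * Real.log r ≤ Real.log (y / a) := by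
    rw [le_div_iff₀ hlr] at h2
    exact h2
  have h5 : Real.log (y / a) < ((n : ℝ) + 1) * Real.log r := by
    rw [div_lt_iff₀ hlr] at h3
    exact h3
  have hrn : 0 < r ^ n := pow_pos (by linarith) n
  refine ⟨n, ?_, ?_, h4⟩
  · have h6 : r ^ n ≤ y / a := by
      rw [← Real.exp_log hq, ← Real.exp_log hrn, Real.exp_le_exp, Real.log_pow]
      exact h4
    rw [le_div_iff₀ ha] at h6
    linarith
  · have h6 : y / a ≤ r ^ (n + 1) := by
      rw [← Real.exp_log hq, ← Real.exp_log (pow_pos (by linarith) (n + 1)), Real.exp_le_exp,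
        Real.log_pow]
      push_cast
      exact h5.le
    rw [div_le_iff₀ ha] at h6
    calc y ≤ r ^ (n + 1) * a := h6
      _ = r * (a * r ^ n) := by ring

theorem mav_thm (hDYV : S_DYV) (hEHB : S_EHB) : S_MAV := by
  obtain ⟨c0, C, κ0, θ, hc0, hc01, hC, hκ, hθ, hθ1, hD⟩ := hDYV
  obtain ⟨CE, hCE, hE⟩ := hEHB
  have hr : (1 : ℝ) < 1 + θ := by linarith
  have hlr : 0 < Real.log (1 + θ) := Real.log_pos hr
  set C2 : ℝ := (CE + 1) / Real.log (1 + θ) + 1 with hC2
  have hC2pos : 1 ≤ C2 := by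
    have : 0 ≤ (CE + 1) / Real.log (1 + θ) := div_nonneg (by linarith) hlr.le
    linarith
  set C3 : ℝ := (1 + 4 / c0) ^ 2 with hC3
  have hC3pos : 1 ≤ C3 := by
    have : 0 ≤ 4 / c0 := by positivity
    rw [hC3]
    exact one_le_pow₀ (by linarith)
  refine ⟨c0 / 2, C2 * C3 * C, κ0, by positivity, ?_, hκ, ?_⟩
  · have h1 : 1 ≤ C2 * C3 := by nlinarith
    nlinarith
  intro X F hX hF
  have hXpos : 0 < X := by linarith
  have hXr : (0 : ℝ) < X ^ (2 / 3 - c0 / 2) := Real.rpow_pos_of_pos hXpos _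
  have hCpos : 0 ≤ C2 * C3 * C := by positivity
  by_cases hX2 : X < 2
  · have h1 : F = ∅ := by
      rw [Finset.eq_empty_iff_forall_notMem]
      intro v hv
      obtain ⟨htri, hRR, _⟩ := hF v hv
      have h2 : (2 : ℝ) ≤ (RR v : ℝ) := by exact_mod_cast mav_two v htri
      linarith
    rw [h1, Finset.card_empty]
    push_cast
    exact mul_nonneg hCpos hXr.le
  · push Not at hX2
    set L : ℝ := Real.log X with hL
    have hL2 : (1 : ℝ) / 2 ≤ L := by
      have h1 : Real.log 2 ≤ L := Real.log_le_log (by norm_num) hX2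
      have h2 := Real.log_two_gt_d9
      linarith
    set a : ℝ := κ0 * L with ha
    have ha2 : 1 / 2 ≤ a := by
      rw [ha]
      nlinarith
    have hapos : 0 < a := by linarith
    set Nm : ℕ := ⌊(CE * (1 + L) ^ 2 + 1) / Real.log (1 + θ)⌋₊ with hNm
    have hup : ∀ v ∈ F, hh v ≤ Real.exp (CE * (1 + L) ^ 2) := by
      intro v hv
      obtain ⟨htri, hRR, _⟩ := hF v hv
      refine (hE v htri).trans ?_
      rw [Real.exp_le_exp]
      have h1 : (0 : ℝ) < (RR v : ℝ) := by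
        have := mav_two v htri
        have h2 : (2 : ℝ) ≤ (RR v : ℝ) := by exact_mod_cast this
        linarith
      have h2 : Real.log (RR v) ≤ L := Real.log_le_log h1 hRR
      have h3 : 0 ≤ Real.log (RR v) := Real.log_natCast_nonneg _
      have h4 : (1 + Real.log (RR v)) ^ 2 ≤ (1 + L) ^ 2 :=
        pow_le_pow_left₀ (by linarith) (by linarith) 2
      exact mul_le_mul_of_nonneg_left h4 (by linarith)
    -- the windows
    have hwin : F ⊆ (range (Nm + 1)).biUnion (fun n => F.filter (fun v =>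
        a * (1 + θ) ^ n ≤ hh v ∧ hh v ≤ (1 + θ) * (a * (1 + θ) ^ n))) := by
      intro v hv
      obtain ⟨htri, hRR, hlo⟩ := hF v hv
      obtain ⟨n, hn1, hn2, hn3⟩ := mav_win a (1 + θ) (hh v) hapos hr hlo
      rw [Finset.mem_biUnion]
      refine ⟨n, ?_, ?_⟩
      · rw [Finset.mem_range, Nat.lt_succ_iff, hNm]
        apply Nat.le_floor
        rw [le_div_iff₀ hlr]
        refine hn3.trans ?_
        have hvpos : 0 < hh v := lt_of_lt_of_le hapos hlo
        rw [Real.log_div hvpos.ne' hapos.ne']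
        have h1 : Real.log (hh v) ≤ CE * (1 + L) ^ 2 := by
          rw [Real.log_le_iff_le_exp hvpos]
          exact hup v hv
        have h2 : -1 ≤ Real.log a := by
          have h3 : Real.log (1 / 2) ≤ Real.log a := Real.log_le_log (by norm_num) ha2
          have h4 : Real.log (1 / 2 : ℝ) = -Real.log 2 := by
            rw [one_div, Real.log_inv]
          have h5 := Real.log_two_lt_d9
          rw [h4] at h3
          linarith
        linarith
      · rw [Finset.mem_filter]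
        exact ⟨hv, hn1, hn2⟩
    have hcard : (F.card : ℝ) ≤ ((Nm : ℝ) + 1) * (C * X ^ (2 / 3 - c0)) := by
      have h1 : F.card ≤ ∑ n ∈ range (Nm + 1), (F.filter (fun v =>
          a * (1 + θ) ^ n ≤ hh v ∧ hh v ≤ (1 + θ) * (a * (1 + θ) ^ n))).card :=
        (Finset.card_le_card hwin).trans Finset.card_biUnion_le
      have h2 : (F.card : ℝ) ≤ ∑ n ∈ range (Nm + 1), ((F.filter (fun v =>
          a * (1 + θ) ^ n ≤ hh v ∧ hh v ≤ (1 + θ) * (a * (1 + θ) ^ n))).card : ℝ) := by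
        exact_mod_cast h1
      refine h2.trans ?_
      have h3 : ∀ n ∈ range (Nm + 1), ((F.filter (fun v =>
          a * (1 + θ) ^ n ≤ hh v ∧ hh v ≤ (1 + θ) * (a * (1 + θ) ^ n))).card : ℝ) ≤
            C * X ^ (2 / 3 - c0) := by
        intro n _
        have hrn : (1 : ℝ) ≤ (1 + θ) ^ n := one_le_pow₀ (by linarith)
        have h4 : a ≤ a * (1 + θ) ^ n := by nlinarith
        apply hD X (a * (1 + θ) ^ n) _ hX (lt_of_lt_of_le hapos h4) h4
        intro v hv
        rw [Finset.mem_filter] at hv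
        obtain ⟨htri, hRR, _⟩ := hF v hv.1
        exact ⟨htri, hRR, hv.2.1, hv.2.2⟩
      refine (Finset.sum_le_sum h3).trans (le_of_eq ?_)
      rw [Finset.sum_const, Finset.card_range, nsmul_eq_mul]
      push_cast
      ring
    have hNmr : (Nm : ℝ) + 1 ≤ C2 * (1 + L) ^ 2 := by
      have h1 : (Nm : ℝ) ≤ (CE * (1 + L) ^ 2 + 1) / Real.log (1 + θ) := by
        apply Nat.floor_le
        apply div_nonneg _ hlr.le
        positivity
      have h2 : (1 : ℝ) ≤ (1 + L) ^ 2 := one_le_pow₀ (by linarith)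
      have h3 : (CE * (1 + L) ^ 2 + 1) / Real.log (1 + θ) ≤
          (CE + 1) / Real.log (1 + θ) * (1 + L) ^ 2 := by
        rw [div_mul_eq_mul_div]
        apply div_le_div_of_nonneg_right _ hlr.le
        nlinarith
      calc (Nm : ℝ) + 1 ≤ (CE + 1) / Real.log (1 + θ) * (1 + L) ^ 2 + 1 * (1 + L) ^ 2 := by
            linarith
        _ = C2 * (1 + L) ^ 2 := by rw [hC2]; ring
    have hLX : (1 + L) ^ 2 ≤ C3 * X ^ (c0 / 2) := by
      have h1 : L ≤ X ^ (c0 / 4) / (c0 / 4) := Real.log_le_rpow_div hXpos.le (by positivity)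
      have h2 : (1 : ℝ) ≤ X ^ (c0 / 4) := Real.one_le_rpow hX (by positivity)
      have h3 : X ^ (c0 / 4) / (c0 / 4) = 4 / c0 * X ^ (c0 / 4) := by
        field_simp
      rw [h3] at h1
      have h4 : 1 + L ≤ (1 + 4 / c0) * X ^ (c0 / 4) := by
        calc 1 + L ≤ X ^ (c0 / 4) + 4 / c0 * X ^ (c0 / 4) := by linarith
          _ = (1 + 4 / c0) * X ^ (c0 / 4) := by ring
      have h5 : X ^ (c0 / 2) = X ^ (c0 / 4) * X ^ (c0 / 4) := by
        rw [← Real.rpow_add hXpos]
        ring_nf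
      calc (1 + L) ^ 2 ≤ ((1 + 4 / c0) * X ^ (c0 / 4)) ^ 2 :=
            pow_le_pow_left₀ (by linarith) h4 2
        _ = C3 * X ^ (c0 / 2) := by rw [hC3, h5]; ring
    have hXs : X ^ (2 / 3 - c0 / 2) = X ^ (c0 / 2) * X ^ (2 / 3 - c0) := by
      rw [← Real.rpow_add hXpos]
      ring_nf
    have hXp : (0 : ℝ) < X ^ (2 / 3 - c0) := Real.rpow_pos_of_pos hXpos _
    have h6 : (Nm : ℝ) + 1 ≤ C2 * (C3 * X ^ (c0 / 2)) :=
      hNmr.trans (mul_le_mul_of_nonneg_left hLX (by linarith))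
    calc (F.card : ℝ) ≤ ((Nm : ℝ) + 1) * (C * X ^ (2 / 3 - c0)) := hcard
      _ ≤ C2 * (C3 * X ^ (c0 / 2)) * (C * X ^ (2 / 3 - c0)) :=
          mul_le_mul_of_nonneg_right h6 (by positivity)
      _ = C2 * C3 * C * X ^ (2 / 3 - c0 / 2) := by rw [hXs]; ring

end Pool.VIO
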